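import Pool.Agent.helper32.CK.Defs

namespace Pool.Agent.helper32.CK

open scoped InnerProductSpace ComplexOrder
open Filter Topology

universe u v w

section F
variable {I : Type u} [Fintype I] [DecidableEq I] {τ : ℝ} {Y : En I → En I}
  {S : (En I →L[ℂ] En I) → (En I →L[ℂ] En I)}

theorem F1_dg_apply (d : I → ℂ) (x : En I) (i : I) : dg d x i = d i * x i := by
  simp [dg, Matrix.ofLp_toEuclideanCLM, Matrix.mulVec_diagonal]

theorem F1_pm_apply (p : Equiv.Perm I) (x : En I) (i : I) : pm p x i = x (p.symm i) := by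
  simp [pm]

theorem F1_norm_dg_apply (d : I → ℂ) (c : ℝ) (hc : 0 ≤ c) (hd : ∀ i, ‖d i‖ ≤ c) (x : En I) :
    ‖dg d x‖ ≤ c * ‖x‖ := by
  rw [EuclideanSpace.norm_eq, EuclideanSpace.norm_eq]
  rw [show c * √(∑ i, ‖x i‖ ^ 2) = √(c ^ 2 * ∑ i, ‖x i‖ ^ 2) by
    rw [Real.sqrt_mul (by positivity), Real.sqrt_sq hc]]
  apply Real.sqrt_le_sqrt
  rw [Finset.mul_sum]
  apply Finset.sum_le_sum
  intro i _
  rw [F1_dg_apply, norm_mul, mul_pow]
  have := hd i
  gcongr

theorem F1_norm_dg (d : I → ℂ) (c : ℝ) (hc : 0 ≤ c) (hd : ∀ i, ‖d i‖ ≤ c) : ‖dg d‖ ≤ c :=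
  ContinuousLinearMap.opNorm_le_bound _ hc (F1_norm_dg_apply d c hc hd)

theorem F1_norm_pm_apply (p : Equiv.Perm I) (x : En I) : ‖pm p x‖ = ‖x‖ := by
  simp [pm]

theorem F1_norm_pm (p : Equiv.Perm I) : ‖pm p‖ ≤ 1 :=
  ContinuousLinearMap.opNorm_le_bound _ zero_le_one (fun x => by
    rw [F1_norm_pm_apply, one_mul])

theorem F1_real_aux (h : Core τ Y S) (hτ0 : 0 ≤ τ) (n : ℕ) : ∀ (d : I → ℝ)
    (hd : ∀ i, |d i| ≤ 1) (x : En I) (hx : ‖x‖ ≤ 1),
    ‖Y (dg (fun i => (d i : ℂ)) x) - dg (fun i => (d i : ℂ)) (Y x)‖ ≤ 3 * τ + 4 / 2 ^ n := by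
  induction n with
  | zero =>
    intro d hd x hx
    have hd' : ∀ i, ‖((d i : ℝ) : ℂ)‖ ≤ 1 := fun i => by
      rw [Complex.norm_real, Real.norm_eq_abs]; exact hd i
    have h1 : ‖dg (fun i => (d i : ℂ)) x‖ ≤ 1 := by
      have := F1_norm_dg_apply _ 1 zero_le_one hd' x
      linarith
    have h2 := h.bd _ h1
    have h3 := F1_norm_dg_apply _ 1 zero_le_one hd' (Y x)
    have h4 := h.bd x hx
    calc _ ≤ ‖Y (dg (fun i => (d i : ℂ)) x)‖ + ‖dg (fun i => (d i : ℂ)) (Y x)‖ := norm_sub_le _ _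
      _ ≤ 2 + 1 * 2 := by gcongr; exact h3.trans (by linarith)
      _ ≤ 3 * τ + 4 / 2 ^ 0 := by norm_num; linarith
  | succ n ih =>
    intro d hd x hx
    let s : I → ℤˣ := fun i => if 0 ≤ d i then 1 else -1
    let d' : I → ℝ := fun i => 2 * d i - ((s i : ℤ) : ℝ)
    have hd'1 : ∀ i, |d' i| ≤ 1 := by
      intro i
      have := abs_le.1 (hd i)
      simp only [d', s]
      split_ifs with h0
      · simp only [Units.val_one, Int.cast_one]
        rw [abs_le]; constructor <;> linarith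
      · push Not at h0
        simp only [Units.val_neg, Units.val_one, Int.cast_neg, Int.cast_one]
        rw [abs_le]; constructor <;> linarith
    have hdn : ∀ i, ‖((d i : ℝ) : ℂ)‖ ≤ 1 := fun i => by
      rw [Complex.norm_real, Real.norm_eq_abs]; exact hd i
    have hdn' : ∀ i, ‖((d' i : ℝ) : ℂ)‖ ≤ 1 := fun i => by
      rw [Complex.norm_real, Real.norm_eq_abs]; exact hd'1 i
    have hsn : ∀ i, ‖((s i : ℤ) : ℂ)‖ ≤ 1 := fun i => by
      simp only [s]; split_ifs <;> simp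
    have key : ∀ y : En I, dg (fun i => (d i : ℂ)) y =
        (1 / 2 : ℂ) • dg (fun i => ((s i : ℤ) : ℂ)) y +
        (1 / 2 : ℂ) • dg (fun i => (d' i : ℂ)) y := by
      intro y
      ext i
      simp only [PiLp.add_apply, PiLp.smul_apply, F1_dg_apply, smul_eq_mul, d']
      push_cast
      ring
    have h1 : ‖dg (fun i => (d i : ℂ)) x‖ ≤ 1 := by
      have := F1_norm_dg_apply _ 1 zero_le_one hdn x
      linarith
    have h2 : ‖dg (fun i => ((s i : ℤ) : ℂ)) x‖ ≤ 1 := by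
      have := F1_norm_dg_apply _ 1 zero_le_one hsn x
      linarith
    have h3 : ‖dg (fun i => (d' i : ℂ)) x‖ ≤ 1 := by
      have := F1_norm_dg_apply _ 1 zero_le_one hdn' x
      linarith
    have hhalf : ‖(1 / 2 : ℂ)‖ = 1 / 2 := by norm_num
    have h4 := h.add _ _ (1 / 2 : ℂ) (1 / 2 : ℂ) h2 h3 (by rw [hhalf]; norm_num)
      (by rw [hhalf]; norm_num) (by rw [← key]; exact h1)
    rw [← key] at h4
    have h5 := h.sign s x hx
    have h6 := ih d' hd'1 x hx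
    have h7 : Y (dg (fun i => (d i : ℂ)) x) - dg (fun i => (d i : ℂ)) (Y x) =
        (Y (dg (fun i => (d i : ℂ)) x) - ((1 / 2 : ℂ) • Y (dg (fun i => ((s i : ℤ) : ℂ)) x) +
          (1 / 2 : ℂ) • Y (dg (fun i => (d' i : ℂ)) x))) +
        (1 / 2 : ℂ) • (Y (dg (fun i => ((s i : ℤ) : ℂ)) x) -
          dg (fun i => ((s i : ℤ) : ℂ)) (Y x)) +
        (1 / 2 : ℂ) • (Y (dg (fun i => (d' i : ℂ)) x) - dg (fun i => (d' i : ℂ)) (Y x)) := by
      rw [key (Y x)]
      module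
    rw [h7]
    calc _ ≤ τ + 1 / 2 * τ + 1 / 2 * (3 * τ + 4 / 2 ^ n) := by
          refine (norm_add₃_le ..).trans ?_
          rw [norm_smul, norm_smul, hhalf]
          gcongr
      _ = 3 * τ + 4 / 2 ^ (n + 1) := by
          rw [pow_succ]; field_simp; ring

theorem Core.real_diag (h : Core τ Y S) (hτ0 : 0 ≤ τ) (hτ : τ ≤ 1 / 10 ^ 6) (d : I → ℝ)
    (hd : ∀ i, |d i| ≤ 1) (x : En I) (hx : ‖x‖ ≤ 1) :
    ‖Y (dg (fun i => (d i : ℂ)) x) - dg (fun i => (d i : ℂ)) (Y x)‖ ≤ 3 * τ := by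
  have h1 : ∀ n : ℕ, ‖Y (dg (fun i => (d i : ℂ)) x) - dg (fun i => (d i : ℂ)) (Y x)‖ ≤
      3 * τ + 4 * (1 / 2) ^ n := by
    intro n
    refine (F1_real_aux h hτ0 n d hd x hx).trans (le_of_eq ?_)
    rw [one_div, inv_pow]; ring
  have h2 : Tendsto (fun n : ℕ => 3 * τ + 4 * (1 / 2 : ℝ) ^ n) atTop (𝓝 (3 * τ + 4 * 0)) := by
    refine Tendsto.add tendsto_const_nhds (Tendsto.const_mul _ ?_)
    exact tendsto_pow_atTop_nhds_zero_of_lt_one (by norm_num) (by norm_num)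
  have h3 := ge_of_tendsto' h2 h1
  linarith

theorem Core.diag (h : Core τ Y S) (hτ0 : 0 ≤ τ) (hτ : τ ≤ 1 / 10 ^ 6) (d : I → ℂ)
    (hd : ∀ i, ‖d i‖ ≤ 1) (x : En I) (hx : ‖x‖ ≤ 1) :
    ‖Y (dg d x) - dg d (Y x)‖ ≤ 7 * τ := by
  have hre : ∀ i, |(d i).re| ≤ 1 := fun i => (Complex.abs_re_le_norm _).trans (hd i)
  have him : ∀ i, |(d i).im| ≤ 1 := fun i => (Complex.abs_im_le_norm _).trans (hd i)
  have key : ∀ y : En I, dg d y =
      (1 : ℂ) • dg (fun i => (((d i).re : ℝ) : ℂ)) y +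
      Complex.I • dg (fun i => (((d i).im : ℝ) : ℂ)) y := by
    intro y
    ext i
    simp only [PiLp.add_apply, PiLp.smul_apply, F1_dg_apply, smul_eq_mul]
    conv_lhs => rw [← Complex.re_add_im (d i)]
    ring
  have n1 : ∀ i, ‖(((d i).re : ℝ) : ℂ)‖ ≤ 1 := fun i => by
    rw [Complex.norm_real, Real.norm_eq_abs]; exact hre i
  have n2 : ∀ i, ‖(((d i).im : ℝ) : ℂ)‖ ≤ 1 := fun i => by
    rw [Complex.norm_real, Real.norm_eq_abs]; exact him i
  have h0 : ‖dg d x‖ ≤ 1 := by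
    have := F1_norm_dg_apply _ 1 zero_le_one hd x
    linarith
  have h1 : ‖dg (fun i => (((d i).re : ℝ) : ℂ)) x‖ ≤ 1 := by
    have := F1_norm_dg_apply _ 1 zero_le_one n1 x
    linarith
  have h2 : ‖dg (fun i => (((d i).im : ℝ) : ℂ)) x‖ ≤ 1 := by
    have := F1_norm_dg_apply _ 1 zero_le_one n2 x
    linarith
  have h4 := h.add _ _ (1 : ℂ) Complex.I h1 h2 (by simp) (by simp) (by rw [← key]; exact h0)
  rw [← key] at h4
  have h5 := Core.real_diag h hτ0 hτ _ hre x hx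
  have h6 := Core.real_diag h hτ0 hτ _ him x hx
  have h7 : Y (dg d x) - dg d (Y x) =
      (Y (dg d x) - ((1 : ℂ) • Y (dg (fun i => (((d i).re : ℝ) : ℂ)) x) +
        Complex.I • Y (dg (fun i => (((d i).im : ℝ) : ℂ)) x))) +
      (1 : ℂ) • (Y (dg (fun i => (((d i).re : ℝ) : ℂ)) x) -
        dg (fun i => (((d i).re : ℝ) : ℂ)) (Y x)) +
      Complex.I • (Y (dg (fun i => (((d i).im : ℝ) : ℂ)) x) -
        dg (fun i => (((d i).im : ℝ) : ℂ)) (Y x)) := by
    rw [key (Y x)]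
    module
  rw [h7]
  calc _ ≤ τ + 1 * (3 * τ) + 1 * (3 * τ) := by
        refine (norm_add₃_le ..).trans ?_
        rw [norm_smul, norm_smul, norm_one, Complex.norm_I]
        gcongr
    _ = 7 * τ := by ring

theorem F1_cmp (h : Core τ Y S) (hτ0 : 0 ≤ τ) (hτ : τ ≤ 1 / 10 ^ 6) (L : En I →L[ℂ] En I)
    (κ : ℝ) (hL : ∀ x, ‖x‖ ≤ 1 → ‖L (Y x)‖ ≤ κ) : ‖L‖ * (1 - τ) ≤ κ := by
  have hκ : 0 ≤ κ := (norm_nonneg _).trans (hL 0 (by simp))
  have h1 : ‖L‖ ≤ κ + ‖L‖ * τ := by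
    refine ContinuousLinearMap.opNorm_le_of_unit_norm (by positivity) ?_
    intro y hy
    obtain ⟨x, hx, hxy⟩ := h.onto y hy.le
    have : L y = L (Y x) - L (Y x - y) := by rw [map_sub]; abel
    rw [this]
    calc _ ≤ ‖L (Y x)‖ + ‖L (Y x - y)‖ := norm_sub_le _ _
      _ ≤ κ + ‖L‖ * τ := by
        gcongr
        · exact hL x hx
        · exact (L.le_opNorm _).trans (by gcongr)
  nlinarith [norm_nonneg L]

theorem Core.cmp (h : Core τ Y S) (hτ0 : 0 ≤ τ) (hτ : τ ≤ 1 / 10 ^ 6) (L : En I →L[ℂ] En I)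
    (κ : ℝ) (hL : ∀ x, ‖x‖ ≤ 1 → ‖L (Y x)‖ ≤ κ) : ‖L‖ ≤ 2 * κ := by
  have h1 := F1_cmp h hτ0 hτ L κ hL
  have hτ2 : τ ≤ 1 / 2 := hτ.trans (by norm_num)
  nlinarith [norm_nonneg L]

theorem Core.norm_op (h : Core τ Y S) (hτ0 : 0 ≤ τ) (hτ : τ ≤ 1 / 10 ^ 6)
    (M : En I →L[ℂ] En I) (hM : ‖M‖ ≤ 1) : ‖S M‖ ≤ 3 := by
  have h1 := F1_cmp h hτ0 hτ (S M) (2 + τ) (fun x hx => by
    have hMx : ‖M x‖ ≤ 1 := (M.le_opNorm x).trans (by nlinarith [norm_nonneg M, norm_nonneg x])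
    have h2 := h.op M hM x hx
    have h3 := h.bd _ hMx
    have : S M (Y x) = Y (M x) + (S M (Y x) - Y (M x)) := by abel
    rw [this]
    exact (norm_add_le _ _).trans (by linarith))
  have hτ2 : τ ≤ 1 / 10 := hτ.trans (by norm_num)
  nlinarith [norm_nonneg (S M)]

theorem Core.op_diag (h : Core τ Y S) (hτ0 : 0 ≤ τ) (hτ : τ ≤ 1 / 10 ^ 6) (d : I → ℂ)
    (hd : ∀ i, ‖d i‖ ≤ 1) : ‖S (dg d) - dg d‖ ≤ 16 * τ := by
  have h1 := Core.cmp h hτ0 hτ (S (dg d) - dg d) (8 * τ) (fun x hx => by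
    have h2 := h.op (dg d) (F1_norm_dg d 1 zero_le_one hd) x hx
    have h3 := Core.diag h hτ0 hτ d hd x hx
    have : (S (dg d) - dg d) (Y x) = (S (dg d) (Y x) - Y (dg d x)) +
        (Y (dg d x) - dg d (Y x)) := by
      rw [sub_apply]; abel
    rw [this]
    exact (norm_add_le _ _).trans (by linarith))
  linarith

theorem Core.op_mul (h : Core τ Y S) (hτ0 : 0 ≤ τ) (hτ : τ ≤ 1 / 10 ^ 6)
    (M N : En I →L[ℂ] En I) (hM : ‖M‖ ≤ 1) (hN : ‖N‖ ≤ 1) :
    ‖S M * S N - S (M * N)‖ ≤ 10 * τ := by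
  have hMN : ‖M * N‖ ≤ 1 := (norm_mul_le _ _).trans (by nlinarith [norm_nonneg M, norm_nonneg N])
  have h1 := Core.cmp h hτ0 hτ (S M * S N - S (M * N)) (5 * τ) (fun x hx => by
    have hNx : ‖N x‖ ≤ 1 := (N.le_opNorm x).trans (by nlinarith [norm_nonneg N, norm_nonneg x])
    have h2 := h.op N hN x hx
    have h3 := h.op M hM (N x) hNx
    have h4 := h.op (M * N) hMN x hx
    have h5 := Core.norm_op h hτ0 hτ M hM
    have : (S M * S N - S (M * N)) (Y x) = S M (S N (Y x) - Y (N x)) +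
        (S M (Y (N x)) - Y (M (N x))) - (S (M * N) (Y x) - Y ((M * N) x)) := by
      rw [sub_apply, mul_apply_eq_comp, map_sub,
        mul_apply_eq_comp]
      abel
    rw [this]
    have h6 : ‖S M (S N (Y x) - Y (N x))‖ ≤ 3 * τ := ((S M).le_opNorm _).trans (by gcongr)
    calc _ ≤ ‖S M (S N (Y x) - Y (N x)) + (S M (Y (N x)) - Y (M (N x)))‖ +
          ‖S (M * N) (Y x) - Y ((M * N) x)‖ := norm_sub_le _ _
      _ ≤ (3 * τ + τ) + τ := by
        gcongr
        exact (norm_add_le _ _).trans (by gcongr)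
      _ = 5 * τ := by ring)
  linarith

/-! ### averaging over signs -/

theorem F1_sum_signs (i j : I) : ∑ s : I → ℤˣ, (((s i : ℤ) : ℂ) * ((s j : ℤ) : ℂ)) =
    if i = j then (Fintype.card (I → ℤˣ) : ℂ) else 0 := by
  split_ifs with hij
  · subst hij
    have : ∀ s : I → ℤˣ, (((s i : ℤ) : ℂ) * ((s i : ℤ) : ℂ)) = 1 := by
      intro s
      rcases Int.units_eq_one_or (s i) with h | h <;> simp [h]
    simp [this]
  · have h1 : ∑ s : I → ℤˣ, (((s i : ℤ) : ℂ) * ((s j : ℤ) : ℂ)) =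
        ∑ s : I → ℤˣ, -(((s i : ℤ) : ℂ) * ((s j : ℤ) : ℂ)) := by
      let t : I → ℤˣ := Pi.mulSingle i (-1 : ℤˣ)
      rw [← Equiv.sum_comp (Equiv.mulLeft t)]
      refine Finset.sum_congr rfl fun s _ => ?_
      have h2 : (t * s) i = - s i := by simp [t]
      have h3 : (t * s) j = s j := by
        simp [t, Pi.mulSingle_eq_of_ne (Ne.symm hij)]
      simp only [Equiv.coe_mulLeft, h2, h3]
      push_cast
      ring
    rw [Finset.sum_neg_distrib] at h1
    exact self_eq_neg.1 h1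

theorem F1_expand (x : En I) : x = ∑ j, x j • EuclideanSpace.single j (1 : ℂ) := by
  ext i
  simp [Finset.sum_apply, Pi.single_apply]

theorem F1_average (R : En I →L[ℂ] En I) :
    ∑ s : I → ℤˣ, dg (fun i => ((s i : ℤ) : ℂ)) * R * dg (fun i => ((s i : ℤ) : ℂ)) =
      (Fintype.card (I → ℤˣ) : ℂ) • dg (fun i => R (EuclideanSpace.single i 1) i) := by
  ext x i
  have h1 : ∀ s : I → ℤˣ, (R (dg (fun i => ((s i : ℤ) : ℂ)) x)) i =
      ∑ j, ((s j : ℤ) : ℂ) * x j * R (EuclideanSpace.single j 1) i := by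
    intro s
    conv_lhs => rw [F1_expand (dg (fun i => ((s i : ℤ) : ℂ)) x)]
    rw [map_sum]
    simp [F1_dg_apply]
  have h2 : ((∑ s : I → ℤˣ, dg (fun i => ((s i : ℤ) : ℂ)) * R *
      dg (fun i => ((s i : ℤ) : ℂ))) x) i =
      ∑ s : I → ℤˣ, ((s i : ℤ) : ℂ) * (R (dg (fun i => ((s i : ℤ) : ℂ)) x)) i := by
    rw [_root_.sum_apply]
    simp [F1_dg_apply, Finset.sum_apply]
  rw [h2]
  simp_rw [h1, Finset.mul_sum]
  rw [Finset.sum_comm]
  have h3 : ∀ j, ∑ s : I → ℤˣ, ((s i : ℤ) : ℂ) * (((s j : ℤ) : ℂ) * x j *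
      R (EuclideanSpace.single j 1) i) =
      (if i = j then (Fintype.card (I → ℤˣ) : ℂ) else 0) * (x j *
      R (EuclideanSpace.single j 1) i) := by
    intro j
    rw [← F1_sum_signs i j, Finset.sum_mul]
    refine Finset.sum_congr rfl fun s _ => ?_
    ring
  simp_rw [h3]
  simp [F1_dg_apply]
  ring

theorem F1_dg_sign_sq (s : I → ℤˣ) : dg (fun i => ((s i : ℤ) : ℂ)) *
    dg (fun i => ((s i : ℤ) : ℂ)) = (1 : En I →L[ℂ] En I) := by
  ext x i
  have : (((s i : ℤ) : ℂ) * (((s i : ℤ) : ℂ) * x i)) = x i := by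
    rcases Int.units_eq_one_or (s i) with h | h <;> simp [h]
  simp [F1_dg_apply, this]

theorem F1_norm_sign (s : I → ℤˣ) (i : I) : ‖((s i : ℤ) : ℂ)‖ ≤ 1 := by
  rcases Int.units_eq_one_or (s i) with h | h <;> simp [h]

/-- an operator that almost commutes with all signs is almost diagonal -/
theorem F1_near_diag (R : En I →L[ℂ] En I) (κ : ℝ)
    (hR : ∀ s : I → ℤˣ, ‖R * dg (fun i => ((s i : ℤ) : ℂ)) -
      dg (fun i => ((s i : ℤ) : ℂ)) * R‖ ≤ κ) :
    ‖R - dg (fun i => R (EuclideanSpace.single i 1) i)‖ ≤ κ := by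
  have hcard : 0 < (Fintype.card (I → ℤˣ) : ℝ) := by
    exact_mod_cast Fintype.card_pos
  have h1 : (Fintype.card (I → ℤˣ) : ℂ) • (R - dg (fun i => R (EuclideanSpace.single i 1) i)) =
      ∑ s : I → ℤˣ, (R * dg (fun i => ((s i : ℤ) : ℂ)) -
        dg (fun i => ((s i : ℤ) : ℂ)) * R) * dg (fun i => ((s i : ℤ) : ℂ)) := by
    rw [smul_sub, ← F1_average]
    have : ∀ s : I → ℤˣ, (R * dg (fun i => ((s i : ℤ) : ℂ)) -
        dg (fun i => ((s i : ℤ) : ℂ)) * R) * dg (fun i => ((s i : ℤ) : ℂ)) =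
        R - dg (fun i => ((s i : ℤ) : ℂ)) * R * dg (fun i => ((s i : ℤ) : ℂ)) := by
      intro s
      rw [sub_mul, mul_assoc R, F1_dg_sign_sq, mul_one]
    simp_rw [this, Finset.sum_sub_distrib]
    congr 1
    rw [Finset.sum_const, Finset.card_univ]
    exact Nat.cast_smul_eq_nsmul ℂ _ _
  have h2 : (Fintype.card (I → ℤˣ) : ℝ) *
      ‖R - dg (fun i => R (EuclideanSpace.single i 1) i)‖ ≤
      (Fintype.card (I → ℤˣ) : ℝ) * κ := by
    have h3 : ‖(Fintype.card (I → ℤˣ) : ℂ) •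
        (R - dg (fun i => R (EuclideanSpace.single i 1) i))‖ =
        (Fintype.card (I → ℤˣ) : ℝ) *
          ‖R - dg (fun i => R (EuclideanSpace.single i 1) i)‖ := by
      rw [norm_smul, Complex.norm_natCast]
    rw [← h3, h1]
    refine (norm_sum_le _ _).trans ?_
    calc _ ≤ ∑ s : I → ℤˣ, κ := by
          refine Finset.sum_le_sum fun s _ => ?_
          refine (norm_mul_le _ _).trans ?_
          have h4 := F1_norm_dg _ 1 zero_le_one (F1_norm_sign s)
          calc _ ≤ κ * 1 := by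
                gcongr
                · exact (norm_nonneg _).trans (hR s)
                · exact hR s
            _ = κ := mul_one _
      _ = _ := by rw [Finset.sum_const, Finset.card_univ, nsmul_eq_mul]
  exact le_of_mul_le_mul_left h2 hcard

theorem F1_pm_dg (p : Equiv.Perm I) (d : I → ℂ) :
    pm p * dg d = dg (fun i => d (p.symm i)) * pm p := by
  ext x i
  simp [F1_dg_apply, F1_pm_apply]

theorem F1_pm_symm_mul (p : Equiv.Perm I) : pm p.symm * pm p = (1 : En I →L[ℂ] En I) := by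
  ext x i
  simp [F1_pm_apply]

theorem F1_mul_pm_symm (p : Equiv.Perm I) : pm p * pm p.symm = (1 : En I →L[ℂ] En I) := by
  ext x i
  simp [F1_pm_apply]

theorem F1_pm_single (p : Equiv.Perm I) (i : I) :
    pm p (EuclideanSpace.single i (1 : ℂ)) = EuclideanSpace.single (p i) 1 := by
  ext j
  simp only [F1_pm_apply, PiLp.single_apply]
  simp only [Equiv.symm_apply_eq]

theorem Core.op_perm (h : Core τ Y S) (hτ0 : 0 ≤ τ) (hτ : τ ≤ 1 / 10 ^ 6) (p : Equiv.Perm I) :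
    ‖S (pm p) - pm p‖ ≤ 121 * τ := by
  have hp := F1_norm_pm p
  have hSp := Core.norm_op h hτ0 hτ (pm p) hp
  -- commutation with signs
  have hcomm : ∀ s : I → ℤˣ, ‖S (pm p) * dg (fun i => ((s i : ℤ) : ℂ)) -
      dg (fun i => ((s (p.symm i) : ℤ) : ℂ)) * S (pm p)‖ ≤ 116 * τ := by
    intro s
    set D := dg (fun i => ((s i : ℤ) : ℂ)) with hD
    set D' := dg (fun i => ((s (p.symm i) : ℤ) : ℂ)) with hD'
    have nD : ‖D‖ ≤ 1 := F1_norm_dg _ 1 zero_le_one (F1_norm_sign s)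
    have nD' : ‖D'‖ ≤ 1 := F1_norm_dg _ 1 zero_le_one (fun i => F1_norm_sign s (p.symm i))
    have e1 : ‖S (pm p) * (D - S D)‖ ≤ 3 * (16 * τ) := by
      refine (norm_mul_le _ _).trans ?_
      have := Core.op_diag h hτ0 hτ _ (F1_norm_sign s)
      rw [norm_sub_rev]
      gcongr
    have e2 : ‖S (pm p) * S D - S (pm p * D)‖ ≤ 10 * τ := Core.op_mul h hτ0 hτ _ _ hp nD
    have e3 : ‖S D' * S (pm p) - S (D' * pm p)‖ ≤ 10 * τ := Core.op_mul h hτ0 hτ _ _ nD' hp
    have e4 : ‖(S D' - D') * S (pm p)‖ ≤ (16 * τ) * 3 := by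
      refine (norm_mul_le _ _).trans ?_
      have := Core.op_diag h hτ0 hτ _ (fun i => F1_norm_sign s (p.symm i))
      gcongr
    have e5 : pm p * D = D' * pm p := F1_pm_dg p _
    have e6 : S (pm p) * D - D' * S (pm p) = S (pm p) * (D - S D) +
        (S (pm p) * S D - S (pm p * D)) - (S D' * S (pm p) - S (D' * pm p)) +
        (S D' - D') * S (pm p) := by
      rw [e5, mul_sub, sub_mul]; abel
    rw [e6]
    calc _ ≤ ((3 * (16 * τ) + 10 * τ) + 10 * τ) + (16 * τ) * 3 := by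
          refine (norm_add_le _ _).trans (add_le_add ?_ e4)
          refine (norm_sub_le _ _).trans (add_le_add ?_ e3)
          exact (norm_add_le _ _).trans (add_le_add e1 e2)
      _ = 116 * τ := by ring
  set R := pm p.symm * S (pm p) with hR
  have hps := F1_norm_pm p.symm
  have hRc : ∀ s : I → ℤˣ, ‖R * dg (fun i => ((s i : ℤ) : ℂ)) -
      dg (fun i => ((s i : ℤ) : ℂ)) * R‖ ≤ 116 * τ := by
    intro s
    have e1 : pm p.symm * dg (fun i => ((s (p.symm i) : ℤ) : ℂ)) =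
        dg (fun i => ((s i : ℤ) : ℂ)) * pm p.symm := by
      rw [F1_pm_dg]; simp
    have e2 : R * dg (fun i => ((s i : ℤ) : ℂ)) - dg (fun i => ((s i : ℤ) : ℂ)) * R =
        pm p.symm * (S (pm p) * dg (fun i => ((s i : ℤ) : ℂ)) -
          dg (fun i => ((s (p.symm i) : ℤ) : ℂ)) * S (pm p)) := by
      rw [hR, mul_sub, ← mul_assoc, ← mul_assoc, ← mul_assoc, e1]
    rw [e2]
    refine (norm_mul_le _ _).trans ?_
    have := hcomm s
    calc _ ≤ 1 * (116 * τ) := by gcongr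
      _ = 116 * τ := one_mul _
  have hdiag := F1_near_diag R (116 * τ) hRc
  -- diagonal entries
  have hent : ∀ i, ‖R (EuclideanSpace.single i 1) i - 1‖ ≤ 5 * τ := by
    intro i
    have hei : ‖(EuclideanSpace.single i (1 : ℂ) : En I)‖ ≤ 1 := by simp
    have b1 := h.base i
    have b2 := h.base (p i)
    have b3 := h.op (pm p) hp _ hei
    rw [F1_pm_single] at b3
    have b4 : ‖S (pm p) (EuclideanSpace.single i 1) - EuclideanSpace.single (p i) 1‖ ≤
        5 * τ := by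
      have : S (pm p) (EuclideanSpace.single i 1) - EuclideanSpace.single (p i) 1 =
          -(S (pm p) (Y (EuclideanSpace.single i 1) - EuclideanSpace.single i 1)) +
          (S (pm p) (Y (EuclideanSpace.single i 1)) - Y (EuclideanSpace.single (p i) 1)) +
          (Y (EuclideanSpace.single (p i) 1) - EuclideanSpace.single (p i) 1) := by
        rw [map_sub]; abel
      rw [this]
      refine (norm_add₃_le ..).trans ?_
      rw [norm_neg]
      have := (S (pm p)).le_opNorm (Y (EuclideanSpace.single i 1) - EuclideanSpace.single i 1)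
      have b5 : ‖S (pm p)‖ * ‖Y (EuclideanSpace.single i 1) - EuclideanSpace.single i 1‖ ≤
          3 * τ := by gcongr
      linarith
    have b5 : R (EuclideanSpace.single i 1) i - 1 =
        (S (pm p) (EuclideanSpace.single i 1) - EuclideanSpace.single (p i) 1 : En I) (p i) := by
      rw [hR, mul_apply_eq_comp, F1_pm_apply]
      simp
    rw [b5]
    exact (PiLp.norm_apply_le _ _).trans b4
  have hdg : ‖dg (fun i => R (EuclideanSpace.single i 1) i) - 1‖ ≤ 5 * τ := by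
    have : dg (fun i => R (EuclideanSpace.single i 1) i) - 1 =
        dg (fun i => R (EuclideanSpace.single i 1) i - 1) := by
      ext x i
      simp [F1_dg_apply]
      ring
    rw [this]
    exact F1_norm_dg _ _ (by positivity) hent
  have hfin : S (pm p) - pm p = pm p * ((R - dg (fun i => R (EuclideanSpace.single i 1) i)) +
      (dg (fun i => R (EuclideanSpace.single i 1) i) - 1)) := by
    rw [sub_add_sub_cancel, mul_sub, mul_one, hR, ← mul_assoc, F1_mul_pm_symm, one_mul]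
  rw [hfin]
  refine (norm_mul_le _ _).trans ?_
  calc _ ≤ 1 * (116 * τ + 5 * τ) := by
        gcongr
        exact (norm_add_le _ _).trans (add_le_add hdiag hdg)
    _ = 121 * τ := by ring

end F
end Pool.Agent.helper32.CK
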